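import Mathlib
import Pool.Agent.H32.OrbACC

/-!
# MP_df5e61_ag: ACC for minimal log discrepancies computed by orbifold weighted blow-ups

Let `Γ ⊆ [0, ∞)` and `Γ' ⊆ ℝ` be DCC sets.  We consider germs `x ∈ (X, Δ)` of `n`-dimensional log
pairs together with *crepant charts*: generically finite maps `π : Y → X` and smooth points
`y ∈ Y` over `x` such that near `y` the pull back of `K_X + Δ` is `K_Y + Δ_Y`, where
`Δ_Y = ∑ c_l (t_l = 0) + ∑ d_j (g_j = 0)`, the `t_l` are parameters at `y`, `c_l ∈ Γ'` and
`d_j ∈ Γ` (for example, `X` is smooth at `x` and `π` is the identity, or `X` is a quotient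
singularity and `π` is the quotient map, or `π` is a partial resolution).

The theorem: the minimal log discrepancies `mld_x (X, Δ) ≥ 0` which are computed by weighted
blow-ups (or by orbifold weighted blow-ups, with weights `(w_1, …, w_n) / r`) in such charts
satisfy the ascending chain condition, in every dimension `n`.
-/

universe u v

open Pool.Agent.H26 Pool.H32

/-- ACC for the minimal log discrepancies computed by orbifold weighted blow-ups in crepant charts,
in every dimension and with coefficients in arbitrary DCC sets. -/
theorem Pool.Agent.Results.MP_df5e61_ag.WeightedBlowups.result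
    (n : ℕ) (Γ Γ' : Set ℝ) (hΓ : ∀ γ ∈ Γ, 0 ≤ γ) (hDCC : DCC Γ) (hDCC' : DCC Γ') :
    ACC (OrbMlds.{u, v} n Γ Γ') :=
  orb_acc n hΓ hDCC hDCC'
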